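import Mathlib

/-!
The transfinite diameter (logarithmic capacity) of a plane set, and a lower bound for sets
containing a segment.
-/

namespace Q298.Hole

open Filter Real Finset

open scoped Nat Topology

/-- The `n`-th diameter of `K`: the supremum over all `z₁, …, zₙ ∈ K` of the geometric mean
`∏_{i<j} |z_i - z_j| ^ (2 / (n (n - 1)))` of the pairwise distances. -/
noncomputable def nthDiameter (K : Set ℂ) (n : ℕ) : ℝ :=
  ⨆ z : {z : Fin n → ℂ // ∀ i, z i ∈ K},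
    (∏ i : Fin n, ∏ j ∈ Finset.Ioi i, ‖z.1 i - z.1 j‖) ^ (2 / ((n : ℝ) * (n - 1)))

/-- The logarithmic capacity (transfinite diameter) of `K`: the limit of the `n`-th diameters. -/
noncomputable def capacity (K : Set ℂ) : ℝ := limsup (nthDiameter K) atTop

lemma prod_pairs (n : ℕ) (G : ℕ → ℕ → ℝ) :
    ∏ i : Fin n, ∏ j ∈ Finset.Ioi i, G i j = ∏ j ∈ range n, ∏ i ∈ range j, G i j := by
  have h1 : ∏ i : Fin n, ∏ j ∈ Finset.Ioi i, G i j = ∏ j : Fin n, ∏ i ∈ Finset.Iio j, G i j := by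
    apply Finset.prod_comm'
    intro x y
    simp
  rw [h1, Finset.prod_range]
  refine Finset.prod_congr rfl fun j _ => ?_
  have h2 : (range (j : ℕ)) = (Finset.Iio j).map Fin.valEmbedding := by
    rw [Fin.map_valEmbedding_Iio, Nat.Iio_eq_range]
  rw [h2, Finset.prod_map]
  rfl

lemma prod_sub_eq_factorial (j : ℕ) : ∏ i ∈ range j, ((j : ℝ) - i) = (j ! : ℝ) := by
  have h := Nat.descFactorial_eq_prod_range j j
  rw [Nat.descFactorial_self] at h
  rw [h, Nat.cast_prod]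
  refine Finset.prod_congr rfl fun i hi => ?_
  rw [Nat.cast_sub (Finset.mem_range.1 hi).le]

lemma factorial_sq_lower (n : ℕ) : (n : ℝ) ^ (2 * n) ≤ (n ! : ℝ) ^ 2 * rexp (2 * n) := by
  have h := Real.pow_div_factorial_le_exp (n : ℝ) (by positivity) n
  rw [div_le_iff₀ (by positivity)] at h
  have h2 := pow_le_pow_left₀ (by positivity) h 2
  calc (n : ℝ) ^ (2 * n) = ((n : ℝ) ^ n) ^ 2 := by rw [← pow_mul, mul_comm]
    _ ≤ _ := h2
    _ = _ := by rw [mul_pow, ← Real.exp_nat_mul]; push_cast; ring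

lemma superfact_lower (n : ℕ) (hn : 1 ≤ n) :
    (n : ℝ) ^ (n * (n - 1)) ≤ (∏ j ∈ range n, (j ! : ℝ)) ^ 2 * rexp (2 * (n * (n - 1) : ℕ)) := by
  induction n, hn using Nat.le_induction with
  | base => simp
  | succ n hn ih =>
    rw [Finset.prod_range_succ]
    have hn0 : (0 : ℝ) < n := by exact_mod_cast hn
    have h1 := factorial_sq_lower n
    have h2 : ((n + 1 : ℕ) : ℝ) ^ ((n + 1) * (n + 1 - 1)) ≤
        (n : ℝ) ^ ((n + 1) * n) * rexp (n + 1) := by
      have e1 : n + 1 - 1 = n := by omega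
      rw [e1]
      have h3 : ((n + 1 : ℕ) : ℝ) ≤ n * rexp (1 / n) := by
        have := Real.add_one_le_exp (1 / (n : ℝ))
        calc ((n + 1 : ℕ) : ℝ) = n * (1 / n + 1) := by push_cast; field_simp; ring
          _ ≤ _ := mul_le_mul_of_nonneg_left this hn0.le
      have h4 := pow_le_pow_left₀ (by positivity) h3 ((n + 1) * n)
      refine h4.trans (le_of_eq ?_)
      rw [mul_pow, ← Real.exp_nat_mul]
      congr 2
      push_cast
      field_simp
    have h5 : rexp ((n : ℝ) + 1) ≤ rexp (2 * n) := by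
      apply Real.exp_le_exp.2
      have : (1 : ℝ) ≤ n := by exact_mod_cast hn
      linarith
    have hexp : (2 : ℝ) * (((n + 1) * (n + 1 - 1) : ℕ) : ℝ) =
        2 * ((n * (n - 1) : ℕ) : ℝ) + (2 * n + 2 * n) := by
      have : (n + 1) * (n + 1 - 1) = n * (n - 1) + 2 * n := by
        obtain ⟨k, rfl⟩ : ∃ k, n = k + 1 := ⟨n - 1, by omega⟩
        simp; ring
      rw [this]; push_cast; ring
    rw [hexp, Real.exp_add, Real.exp_add]
    refine h2.trans ?_
    have hpow : (n : ℝ) ^ ((n + 1) * n) = (n : ℝ) ^ (n * (n - 1)) * (n : ℝ) ^ (2 * n) := by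
      rw [← pow_add]
      congr 1
      obtain ⟨k, rfl⟩ : ∃ k, n = k + 1 := ⟨n - 1, by omega⟩
      simp; ring
    rw [hpow]
    calc (n : ℝ) ^ (n * (n - 1)) * (n : ℝ) ^ (2 * n) * rexp (n + 1)
        ≤ ((∏ j ∈ range n, (j ! : ℝ)) ^ 2 * rexp (2 * (n * (n - 1) : ℕ))) *
          ((n ! : ℝ) ^ 2 * rexp (2 * n)) * rexp (2 * n) := by gcongr
      _ = _ := by ring

/-- The bound for `n` equally spaced points of a segment. -/
lemma pairs_lower (L : ℝ) (hL : 0 < L) (n : ℕ) (hn : 2 ≤ n) :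
    2 * L / rexp 2 ≤ (∏ i : Fin n, ∏ j ∈ Finset.Ioi i,
      ‖((-L + 2 * L * (i : ℕ) / n : ℝ) : ℂ) - ((-L + 2 * L * (j : ℕ) / n : ℝ) : ℂ)‖) ^
        (2 / ((n : ℝ) * (n - 1))) := by
  have hn0 : (0 : ℝ) < n := by exact_mod_cast (by omega : 0 < n)
  have hn1 : (0 : ℝ) < (n : ℝ) - 1 := by
    have : (2 : ℝ) ≤ n := by exact_mod_cast hn
    linarith
  rw [prod_pairs n (fun i j => ‖((-L + 2 * L * (i : ℕ) / n : ℝ) : ℂ) -
    ((-L + 2 * L * (j : ℕ) / n : ℝ) : ℂ)‖)]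
  have h1 : ∏ j ∈ range n, ∏ i ∈ range j, ‖((-L + 2 * L * (i : ℕ) / n : ℝ) : ℂ) -
      ((-L + 2 * L * (j : ℕ) / n : ℝ) : ℂ)‖ =
      (2 * L / n) ^ (∑ j ∈ range n, j) * ∏ j ∈ range n, (j ! : ℝ) := by
    rw [← Finset.prod_pow_eq_pow_sum, ← Finset.prod_mul_distrib]
    refine Finset.prod_congr rfl fun j _ => ?_
    rw [← prod_sub_eq_factorial j]
    have h2 : ((2 * L / n) ^ j : ℝ) = ∏ i ∈ range j, (2 * L / n) := by
      rw [Finset.prod_const, Finset.card_range]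
    rw [h2, ← Finset.prod_mul_distrib]
    refine Finset.prod_congr rfl fun i hi => ?_
    have hij : (i : ℝ) < j := by exact_mod_cast Finset.mem_range.1 hi
    rw [← Complex.ofReal_sub, Complex.norm_real]
    have h3 : (-L + 2 * L * (i : ℕ) / n : ℝ) - (-L + 2 * L * (j : ℕ) / n) =
        -(2 * L / n * (j - i)) := by ring
    rw [h3, norm_neg, Real.norm_of_nonneg]
    have : (0 : ℝ) ≤ (j : ℝ) - i := by linarith
    positivity
  rw [h1]
  set V : ℝ := (2 * L / n) ^ (∑ j ∈ range n, j) * ∏ j ∈ range n, (j ! : ℝ) with hV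
  have hV0 : 0 < V := by
    apply mul_pos (by positivity)
    exact Finset.prod_pos fun j _ => by positivity
  have hV2 : (2 * L / rexp 2) ^ (n * (n - 1)) ≤ V ^ 2 := by
    have h4 := superfact_lower n (by omega)
    have h5 : (∑ j ∈ range n, j) * 2 = n * (n - 1) := Finset.sum_range_id_mul_two n
    rw [hV, mul_pow, ← pow_mul, h5]
    have h6 : (2 * L / rexp 2) ^ (n * (n - 1)) =
        (2 * L / n) ^ (n * (n - 1)) * ((n : ℝ) ^ (n * (n - 1)) / rexp 2 ^ (n * (n - 1))) := by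
      rw [← div_pow, ← mul_pow]
      congr 1
      field_simp
    rw [h6]
    apply mul_le_mul_of_nonneg_left _ (by positivity)
    rw [div_le_iff₀ (by positivity)]
    refine h4.trans (le_of_eq ?_)
    congr 1
    rw [← Real.exp_nat_mul]
    ring_nf
  have hm0 : (0 : ℝ) < (n : ℝ) * (n - 1) := mul_pos hn0 hn1
  have e1 : V ^ (2 / ((n : ℝ) * (n - 1))) = (V ^ 2) ^ (1 / ((n : ℝ) * (n - 1))) := by
    rw [← Real.rpow_natCast V 2, ← Real.rpow_mul hV0.le]
    congr 1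
    push_cast
    ring
  rw [e1]
  have e2 : 2 * L / rexp 2 = ((2 * L / rexp 2) ^ (n * (n - 1))) ^ (1 / ((n : ℝ) * (n - 1))) := by
    rw [← Real.rpow_natCast _ (n * (n - 1)), ← Real.rpow_mul (by positivity)]
    have : ((n * (n - 1) : ℕ) : ℝ) = (n : ℝ) * (n - 1) := by
      rw [Nat.cast_mul, Nat.cast_sub (by omega)]; simp
    rw [this, mul_one_div_cancel hm0.ne', Real.rpow_one]
  rw [e2]
  exact Real.rpow_le_rpow (by positivity) hV2 (by positivity)

lemma geom_mean_le (K : Set ℂ) (D : ℝ) (hD : 1 ≤ D) (hK : ∀ z ∈ K, ∀ w ∈ K, ‖z - w‖ ≤ D)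
    (n : ℕ) (z : {z : Fin n → ℂ // ∀ i, z i ∈ K}) :
    (∏ i : Fin n, ∏ j ∈ Finset.Ioi i, ‖z.1 i - z.1 j‖) ^ (2 / ((n : ℝ) * (n - 1))) ≤ D := by
  rcases lt_or_ge n 2 with hn | hn
  · have : (2 / ((n : ℝ) * (n - 1))) = 0 := by
      interval_cases n <;> simp
    rw [this, Real.rpow_zero]
    exact hD
  · have hn0 : (0 : ℝ) < n := by exact_mod_cast (by omega : 0 < n)
    have hn1 : (0 : ℝ) < (n : ℝ) - 1 := by
      have : (2 : ℝ) ≤ n := by exact_mod_cast hn
      linarith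
    have hm0 : (0 : ℝ) < (n : ℝ) * (n - 1) := mul_pos hn0 hn1
    have h1 : ∏ i : Fin n, ∏ j ∈ Finset.Ioi i, ‖z.1 i - z.1 j‖ ≤
        ∏ i : Fin n, ∏ j ∈ Finset.Ioi i, D := by
      refine Finset.prod_le_prod (fun i _ => Finset.prod_nonneg fun j _ => norm_nonneg _)
        fun i _ => ?_
      exact Finset.prod_le_prod (fun j _ => norm_nonneg _)
        fun j _ => hK _ (z.2 i) _ (z.2 j)
    have h2 : ∏ i : Fin n, ∏ j ∈ Finset.Ioi i, D = D ^ (∑ j ∈ range n, j) := by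
      rw [prod_pairs n (fun _ _ => D), ← Finset.prod_pow_eq_pow_sum]
      exact Finset.prod_congr rfl fun j _ => by simp
    rw [h2] at h1
    have h0 : 0 ≤ ∏ i : Fin n, ∏ j ∈ Finset.Ioi i, ‖z.1 i - z.1 j‖ :=
      Finset.prod_nonneg fun i _ => Finset.prod_nonneg fun j _ => norm_nonneg _
    refine (Real.rpow_le_rpow h0 h1 (by positivity)).trans (le_of_eq ?_)
    rw [← Real.rpow_natCast D, ← Real.rpow_mul (by linarith)]
    have h5 : ((∑ j ∈ range n, j : ℕ) : ℝ) * 2 = (n : ℝ) * (n - 1) := by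
      have := Finset.sum_range_id_mul_two n
      have h6 : (((∑ j ∈ range n, j) * 2 : ℕ) : ℝ) = ((n * (n - 1) : ℕ) : ℝ) := by rw [this]
      rw [Nat.cast_mul, Nat.cast_mul, Nat.cast_sub (by omega)] at h6
      simpa using h6
    have h7 : ((∑ j ∈ range n, j : ℕ) : ℝ) * (2 / ((n : ℝ) * (n - 1))) = 1 := by
      rw [← mul_div_assoc, h5, div_self hm0.ne']
    rw [h7, Real.rpow_one]

lemma capacity_lower (K : Set ℂ) (L : ℝ) (hL : 0 < L) (hK : Bornology.IsBounded K)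
    (hseg : ∀ x : ℝ, |x| ≤ L → (x : ℂ) ∈ K) : 2 * L / rexp 2 ≤ capacity K := by
  obtain ⟨D0, hD0⟩ := (Metric.isBounded_iff.1 hK)
  set D := max D0 1 with hD
  have hKD : ∀ z ∈ K, ∀ w ∈ K, ‖z - w‖ ≤ D := by
    intro z hz w hw
    have := hD0 hz hw
    rw [dist_eq_norm] at this
    exact this.trans (le_max_left _ _)
  have hD1 : 1 ≤ D := le_max_right _ _
  have hle : ∀ n, nthDiameter K n ≤ D := fun n =>
    Real.iSup_le (fun z => geom_mean_le K D hD1 hKD n z) (by linarith)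
  have hge : ∀ n, 2 ≤ n → 2 * L / rexp 2 ≤ nthDiameter K n := by
    intro n hn
    have hn0 : (0 : ℝ) < n := by exact_mod_cast (by omega : 0 < n)
    let z : {z : Fin n → ℂ // ∀ i, z i ∈ K} :=
      ⟨fun i => ((-L + 2 * L * (i : ℕ) / n : ℝ) : ℂ), fun i => hseg _ (by
        have hi : ((i : ℕ) : ℝ) ≤ n := by exact_mod_cast i.2.le
        have h1 : ((i : ℕ) : ℝ) / n ≤ 1 := by rw [div_le_one hn0]; exact hi
        have h2 : (0 : ℝ) ≤ ((i : ℕ) : ℝ) / n := by positivity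
        have h3 : 2 * L * (i : ℕ) / n = 2 * L * (((i : ℕ) : ℝ) / n) := by ring
        rw [h3, abs_le]
        constructor <;> nlinarith)⟩
    have hb : BddAbove (Set.range fun z : {z : Fin n → ℂ // ∀ i, z i ∈ K} =>
        (∏ i : Fin n, ∏ j ∈ Finset.Ioi i, ‖z.1 i - z.1 j‖) ^ (2 / ((n : ℝ) * (n - 1)))) := by
      refine ⟨D, ?_⟩
      rintro _ ⟨w, rfl⟩
      exact geom_mean_le K D hD1 hKD n w
    exact (pairs_lower L hL n hn).trans (le_ciSup hb z)
  refine le_limsup_of_frequently_le ?_ ⟨D, by simpa using ⟨0, fun n _ => hle n⟩⟩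
  exact (eventually_atTop.2 ⟨2, hge⟩).frequently

end Q298.Hole
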