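import Mathlib

/-!
Deterministic part: an entire function whose normalised Taylor coefficients are close to those of
`exp (z ^ 2 / 2)` has no zeros in a large rectangle.
-/

namespace Q298.Hole

open Complex Real Filter

open scoped Nat

/-- The normalised coefficients of `exp (z ^ 2 / 2)`. -/
noncomputable def hc (n : ℕ) : ℂ :=
  if Even n then ((√(n ! : ℝ) / (2 ^ (n / 2) * ((n / 2)! : ℝ)) : ℝ) : ℂ) else 0

lemma fact_pos (n : ℕ) : (0 : ℝ) < (n ! : ℝ) := by exact_mod_cast Nat.factorial_pos n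

lemma sqrt_fact_pos (n : ℕ) : (0 : ℝ) < √(n ! : ℝ) := Real.sqrt_pos.2 (fact_pos n)

lemma hc_norm_le (n : ℕ) : ‖hc n‖ ≤ 1 := by
  unfold hc
  split_ifs with h
  · obtain ⟨k, rfl⟩ := h
    have e : (k + k) / 2 = k := by omega
    rw [e, Complex.norm_real, Real.norm_of_nonneg (by positivity)]
    rw [div_le_one (by have := fact_pos k; positivity)]
    apply Real.sqrt_le_iff.2
    refine ⟨by have := fact_pos k; positivity, ?_⟩
    have h1 : (2 * k).choose k ≤ 2 ^ (2 * k) := Nat.choose_le_two_pow _ _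
    have h2 : (2 * k).choose k * (k ! * k !) = (2 * k)! := by
      have := Nat.choose_mul_factorial_mul_factorial (n := 2 * k) (k := k) (by omega)
      have e2 : 2 * k - k = k := by omega
      rw [e2] at this
      rw [← this]; ring
    have h3 : (2 * k)! ≤ 2 ^ (2 * k) * (k ! * k !) := by
      rw [← h2]; exact Nat.mul_le_mul_right _ h1
    have e3 : k + k = 2 * k := by ring
    rw [e3]
    calc ((2 * k)! : ℝ) ≤ ((2 ^ (2 * k) * (k ! * k !) : ℕ) : ℝ) := by exact_mod_cast h3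
      _ = (2 ^ k * (k ! : ℝ)) ^ 2 := by push_cast; ring
  · simp

lemma hc_hasSum (z : ℂ) :
    HasSum (fun n => hc n * z ^ n / ((√(n ! : ℝ) : ℝ) : ℂ)) (cexp (z ^ 2 / 2)) := by
  have h0 : HasSum (fun k : ℕ => (z ^ 2 / 2) ^ k / (k ! : ℂ)) (cexp (z ^ 2 / 2)) := by
    rw [Complex.exp_eq_exp_ℂ]
    exact NormedSpace.expSeries_div_hasSum_exp _
  have hinj : Function.Injective (fun k : ℕ => 2 * k) := fun a b h => by
    simpa using h
  rw [← hinj.hasSum_iff]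
  · convert h0 using 2 with k
    have e : (2 * k) / 2 = k := by omega
    have hs : ((√((2 * k)! : ℝ) : ℝ) : ℂ) ≠ 0 := by
      exact_mod_cast (sqrt_fact_pos (2 * k)).ne'
    have hk : ((k ! : ℝ) : ℂ) ≠ 0 := by exact_mod_cast (fact_pos k).ne'
    simp only [Function.comp, hc, even_two_mul, if_true, e]
    rw [div_pow, ← pow_mul]
    push_cast
    push_cast at hk
    field_simp
  · intro n hn
    have : ¬ Even n := by
      rintro ⟨k, rfl⟩
      exact hn ⟨k, by simp; ring⟩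
    simp [hc, this]

lemma pow_div_sqrt_le (x : ℝ) (n : ℕ) (_hx : 0 ≤ x) :
    x ^ n / √(n ! : ℝ) ≤ rexp (x ^ 2 / 2) := by
  have h := Real.pow_div_factorial_le_exp (x ^ 2) (by positivity) n
  have h1 : (x ^ n / √(n ! : ℝ)) ^ 2 ≤ (rexp (x ^ 2 / 2)) ^ 2 := by
    rw [div_pow, Real.sq_sqrt (fact_pos n).le, ← Real.exp_nat_mul]
    have e1 : ((2 : ℕ) : ℝ) * (x ^ 2 / 2) = x ^ 2 := by push_cast; ring
    rw [e1, ← pow_mul, mul_comm n 2, pow_mul]
    exact h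
  exact (le_abs_self _).trans (abs_le_of_sq_le_sq h1 (Real.exp_pos _).le)

lemma tail_term_le (x : ℝ) (n : ℕ) (hx : 0 ≤ x) :
    2 ^ n * (x ^ n / √(n ! : ℝ)) ≤ rexp (8 * x ^ 2) * (1 / 2) ^ n := by
  have h := pow_div_sqrt_le (4 * x) n (by positivity)
  have e1 : (4 * x) ^ 2 / 2 = 8 * x ^ 2 := by ring
  rw [e1] at h
  have e2 : 2 ^ n * (x ^ n / √(n ! : ℝ)) = ((4 * x) ^ n / √(n ! : ℝ)) * (1 / 2) ^ n := by
    have : (4 * x) ^ n = 2 ^ n * 2 ^ n * x ^ n := by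
      rw [← mul_pow, ← mul_pow]; ring
    rw [this, one_div, inv_pow]
    field_simp
  rw [e2]
  exact mul_le_mul_of_nonneg_right h (by positivity)

/-- If the coefficients are close to those of `exp (z ^ 2 / 2)`, there is no zero. -/
lemma no_zero (a : ℕ → ℂ) (N : ℕ) (ε r R : ℝ) (hε : 0 ≤ ε) (hR : 0 ≤ R)
    (h1 : ∀ n < N, ‖a n - hc n‖ ≤ ε) (h2 : ∀ n, N ≤ n → ‖a n - hc n‖ ≤ 2 ^ n)
    (hN1 : (N : ℝ) * ε * rexp (r ^ 2) ≤ 1 / 4)
    (hN2 : rexp (8 * R ^ 2) * (2 * (1 / 2) ^ N) * rexp (r ^ 2 / 2) ≤ 1 / 4)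
    (z : ℂ) (hz1 : |z.im| ≤ r) (hz2 : ‖z‖ ≤ R) :
    ∑' n, a n * z ^ n / ((√(n ! : ℝ) : ℝ) : ℂ) ≠ 0 := by
  classical
  set x := ‖z‖ with hx
  have hx0 : 0 ≤ x := norm_nonneg z
  set D : ℕ → ℂ := fun n => (a n - hc n) * z ^ n / ((√(n ! : ℝ) : ℝ) : ℂ) with hD
  have hDn : ∀ n, ‖D n‖ = ‖a n - hc n‖ * (x ^ n / √(n ! : ℝ)) := by
    intro n
    simp only [hD]
    rw [norm_div, norm_mul, norm_pow, Complex.norm_real, Real.norm_of_nonneg (sqrt_fact_pos n).le,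
      mul_div_assoc]
  have hgeo : ∀ n, N ≤ n → ‖D n‖ ≤ rexp (8 * x ^ 2) * (1 / 2) ^ n := by
    intro n hn
    rw [hDn]
    refine le_trans ?_ (tail_term_le x n hx0)
    exact mul_le_mul_of_nonneg_right (h2 n hn) (by have := sqrt_fact_pos n; positivity)
  have hsg : Summable (fun n : ℕ => rexp (8 * x ^ 2) * (1 / 2 : ℝ) ^ n) :=
    (summable_geometric_of_lt_one (by norm_num) (by norm_num)).mul_left _
  have hsN : Summable (fun n => ‖D (n + N)‖) := by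
    refine Summable.of_nonneg_of_le (fun n => norm_nonneg _)
      (fun n => hgeo (n + N) (by omega)) ?_
    exact (summable_nat_add_iff N).2 hsg
  have hs : Summable (fun n => ‖D n‖) := (summable_nat_add_iff N).1 hsN
  have hsD : Summable D := hs.of_norm
  have hsum : ∑' n, a n * z ^ n / ((√(n ! : ℝ) : ℝ) : ℂ) = cexp (z ^ 2 / 2) + ∑' n, D n := by
    have h3 := (hc_hasSum z).add hsD.hasSum
    rw [← h3.tsum_eq]
    refine tsum_congr fun n => ?_
    simp only [hD]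
    ring
  have hfirst : ∑ n ∈ Finset.range N, ‖D n‖ ≤ N * ε * rexp (x ^ 2 / 2) := by
    have : ∀ n ∈ Finset.range N, ‖D n‖ ≤ ε * rexp (x ^ 2 / 2) := by
      intro n hn
      rw [hDn]
      exact mul_le_mul (h1 n (Finset.mem_range.1 hn)) (pow_div_sqrt_le x n hx0)
        (by have := sqrt_fact_pos n; positivity) hε
    calc _ ≤ ∑ n ∈ Finset.range N, ε * rexp (x ^ 2 / 2) := Finset.sum_le_sum this
      _ = _ := by simp [mul_assoc]
  have hsecond : ∑' n, ‖D (n + N)‖ ≤ rexp (8 * x ^ 2) * (2 * (1 / 2) ^ N) := by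
    have h4 : ∑' n, ‖D (n + N)‖ ≤ ∑' n : ℕ, rexp (8 * x ^ 2) * (1 / 2 : ℝ) ^ (n + N) :=
      Summable.tsum_le_tsum (fun n => hgeo (n + N) (by omega)) hsN
        ((summable_nat_add_iff N).2 hsg)
    refine h4.trans (le_of_eq ?_)
    rw [tsum_mul_left]
    congr 1
    simp_rw [pow_add]
    rw [tsum_mul_right, tsum_geometric_of_lt_one (by norm_num) (by norm_num)]
    norm_num
  have htot : ‖∑' n, D n‖ ≤ N * ε * rexp (x ^ 2 / 2) + rexp (8 * x ^ 2) * (2 * (1 / 2) ^ N) := by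
    refine (norm_tsum_le_tsum_norm hs).trans ?_
    rw [← hs.sum_add_tsum_nat_add N]
    exact add_le_add hfirst hsecond
  -- main term
  have hmain : ‖cexp (z ^ 2 / 2)‖ = rexp ((z.re ^ 2 - z.im ^ 2) / 2) := by
    rw [Complex.norm_exp]
    congr 1
    have : (z ^ 2 / 2).re = (z ^ 2).re / 2 := by
      simp
    rw [this, pow_two, Complex.mul_re]
    ring
  have hx2 : x ^ 2 = z.re ^ 2 + z.im ^ 2 := by
    rw [hx, Complex.sq_norm, Complex.normSq_apply]; ring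
  have him : z.im ^ 2 ≤ r ^ 2 := by
    rw [← sq_abs z.im]
    exact pow_le_pow_left₀ (abs_nonneg _) hz1 2
  have hA : N * ε * rexp (x ^ 2 / 2) ≤ 1 / 4 * rexp ((z.re ^ 2 - z.im ^ 2) / 2) := by
    have e1 : rexp (x ^ 2 / 2) ≤ rexp (r ^ 2) * rexp ((z.re ^ 2 - z.im ^ 2) / 2) := by
      rw [← Real.exp_add]
      apply Real.exp_le_exp.2
      rw [hx2]
      linarith
    calc N * ε * rexp (x ^ 2 / 2)
        ≤ N * ε * (rexp (r ^ 2) * rexp ((z.re ^ 2 - z.im ^ 2) / 2)) :=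
          mul_le_mul_of_nonneg_left e1 (by positivity)
      _ = (N * ε * rexp (r ^ 2)) * rexp ((z.re ^ 2 - z.im ^ 2) / 2) := by ring
      _ ≤ _ := mul_le_mul_of_nonneg_right hN1 (Real.exp_pos _).le
  have hB : rexp (8 * x ^ 2) * (2 * (1 / 2) ^ N) ≤ 1 / 4 * rexp ((z.re ^ 2 - z.im ^ 2) / 2) := by
    have e1 : rexp (8 * x ^ 2) ≤ rexp (8 * R ^ 2) := by
      apply Real.exp_le_exp.2
      have : x ^ 2 ≤ R ^ 2 := by gcongr
      linarith
    have e2 : 1 ≤ rexp (r ^ 2 / 2) * rexp ((z.re ^ 2 - z.im ^ 2) / 2) := by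
      rw [← Real.exp_add]
      apply Real.one_le_exp
      have := sq_nonneg z.re
      linarith
    have e3 : 0 ≤ rexp (8 * R ^ 2) * (2 * (1 / 2 : ℝ) ^ N) := by positivity
    calc rexp (8 * x ^ 2) * (2 * (1 / 2) ^ N) ≤ rexp (8 * R ^ 2) * (2 * (1 / 2) ^ N) :=
          mul_le_mul_of_nonneg_right e1 (by positivity)
      _ ≤ rexp (8 * R ^ 2) * (2 * (1 / 2) ^ N) *
            (rexp (r ^ 2 / 2) * rexp ((z.re ^ 2 - z.im ^ 2) / 2)) := le_mul_of_one_le_right e3 e2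
      _ = (rexp (8 * R ^ 2) * (2 * (1 / 2) ^ N) * rexp (r ^ 2 / 2)) *
            rexp ((z.re ^ 2 - z.im ^ 2) / 2) := by ring
      _ ≤ _ := mul_le_mul_of_nonneg_right hN2 (Real.exp_pos _).le
  rw [hsum]
  intro h0
  have h5 : cexp (z ^ 2 / 2) = -∑' n, D n := eq_neg_of_add_eq_zero_left h0
  have h6 : ‖cexp (z ^ 2 / 2)‖ = ‖∑' n, D n‖ := by rw [h5, norm_neg]
  have h7 := Real.exp_pos ((z.re ^ 2 - z.im ^ 2) / 2)
  rw [hmain] at h6
  linarith

end Q298.Hole
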