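import Mathlib

/-!
Probabilistic part: lower bounds for the probability that a sequence of independent standard
complex Gaussians stays close to a given sequence.
-/

namespace Q298.Hole

open MeasureTheory ProbabilityTheory Filter Real Metric

open scoped ENNReal NNReal Topology

/-- The standard complex Gaussian distribution, with density `π⁻¹ exp (-|w|²)`. -/
noncomputable def stdComplexGaussian : Measure ℂ :=
  (volume : Measure ℂ).withDensity (fun w => ENNReal.ofReal (π⁻¹ * rexp (-‖w‖ ^ 2)))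

lemma ball_lower (h : ℂ) (ε : ℝ) (hh : ‖h‖ ≤ 1) (h0 : 0 ≤ ε) (h1 : ε ≤ 1) :
    ENNReal.ofReal (ε ^ 2 * rexp (-4)) ≤ stdComplexGaussian (closedBall h ε) := by
  unfold stdComplexGaussian
  rw [withDensity_apply _ measurableSet_closedBall]
  have h2 : ∫⁻ _w in closedBall h ε, ENNReal.ofReal (π⁻¹ * rexp (-4)) ≤
      ∫⁻ w in closedBall h ε, ENNReal.ofReal (π⁻¹ * rexp (-‖w‖ ^ 2)) := by
    apply setLIntegral_mono' measurableSet_closedBall
    intro w hw
    apply ENNReal.ofReal_le_ofReal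
    apply mul_le_mul_of_nonneg_left _ (by positivity)
    apply Real.exp_le_exp.2
    have h3 : ‖w‖ ≤ 2 := by
      have h4 : ‖w - h‖ ≤ ε := by simpa [dist_eq_norm] using hw
      calc ‖w‖ = ‖(w - h) + h‖ := by ring_nf
        _ ≤ ‖w - h‖ + ‖h‖ := norm_add_le _ _
        _ ≤ 2 := by linarith
    have h5 : ‖w‖ ^ 2 ≤ 2 ^ 2 := pow_le_pow_left₀ (norm_nonneg _) h3 2
    linarith
  refine le_trans (le_of_eq ?_) h2
  rw [setLIntegral_const, Complex.volume_closedBall, ← ENNReal.ofReal_pow h0]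
  rw [← ENNReal.ofReal_coe_nnreal, ← ENNReal.ofReal_mul (by positivity),
    ← ENNReal.ofReal_mul (by positivity)]
  congr 1
  have : ((NNReal.pi : ℝ≥0) : ℝ) = π := rfl
  rw [this]
  field_simp

lemma tail_upper (t : ℝ) (ht : 0 ≤ t) :
    stdComplexGaussian {w | t < ‖w‖} ≤ ENNReal.ofReal (2 * rexp (-t ^ 2 / 2)) := by
  have hms : MeasurableSet {w : ℂ | t < ‖w‖} := measurableSet_lt measurable_const measurable_norm
  unfold stdComplexGaussian
  rw [withDensity_apply _ hms]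
  have hint0 : ∫ v : ℂ, rexp (-(1 / 2 : ℝ) * ‖v‖ ^ 2) = 2 * π := by
    rw [GaussianFourier.integral_rexp_neg_mul_sq_norm (by norm_num)]
    rw [Complex.finrank_real_complex]
    norm_num
    ring
  have hintg : Integrable (fun v : ℂ => rexp (-(1 / 2 : ℝ) * ‖v‖ ^ 2)) := by
    by_contra hcon
    rw [integral_undef hcon] at hint0
    have := Real.pi_pos
    linarith
  have h2 : ∫⁻ w in {w : ℂ | t < ‖w‖}, ENNReal.ofReal (π⁻¹ * rexp (-‖w‖ ^ 2)) ≤
      ∫⁻ w in {w : ℂ | t < ‖w‖},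
        ENNReal.ofReal (π⁻¹ * rexp (-t ^ 2 / 2) * rexp (-(1 / 2 : ℝ) * ‖w‖ ^ 2)) := by
    apply setLIntegral_mono' hms
    intro w hw
    apply ENNReal.ofReal_le_ofReal
    rw [mul_assoc, ← Real.exp_add]
    apply mul_le_mul_of_nonneg_left _ (by positivity)
    apply Real.exp_le_exp.2
    have h5 : t ^ 2 ≤ ‖w‖ ^ 2 := pow_le_pow_left₀ ht (le_of_lt hw) 2
    linarith
  refine h2.trans ?_
  refine (setLIntegral_le_lintegral _ _).trans ?_
  rw [← ofReal_integral_eq_lintegral_ofReal (hintg.const_mul _)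
    (Eventually.of_forall fun w => by positivity)]
  apply ENNReal.ofReal_le_ofReal
  rw [integral_const_mul, hint0]
  have := Real.pi_pos
  field_simp
  exact le_refl _

lemma tail_ball (h : ℂ) (n : ℕ) (hh : ‖h‖ ≤ 1) (hn : 4 ≤ n) :
    stdComplexGaussian (closedBall h (2 ^ n))ᶜ ≤ ENNReal.ofReal ((1 / 2) ^ n) := by
  have h1 : (closedBall h (2 ^ n))ᶜ ⊆ {w : ℂ | (n : ℝ) < ‖w‖} := by
    intro w hw
    simp only [Set.mem_compl_iff, mem_closedBall, not_le, dist_eq_norm] at hw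
    have h2 : ‖w - h‖ ≤ ‖w‖ + ‖h‖ := norm_sub_le _ _
    have h3 : (n : ℝ) + 1 ≤ 2 ^ n := by
      have : n + 1 ≤ 2 ^ n := Nat.lt_two_pow_self
      exact_mod_cast this
    simp only [Set.mem_setOf_eq]
    linarith
  refine (measure_mono h1).trans ((tail_upper n (by positivity)).trans ?_)
  apply ENNReal.ofReal_le_ofReal
  have hn' : (4 : ℝ) ≤ n := by exact_mod_cast hn
  have h4 : rexp (-(n : ℝ) ^ 2 / 2) ≤ rexp (-2 * n) := by
    apply Real.exp_le_exp.2
    nlinarith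
  have h5 : rexp (-2 * (n : ℝ)) = (rexp (-2)) ^ n := by
    rw [← Real.exp_nat_mul]; ring_nf
  have h6 : rexp (-2) ≤ 1 / 4 := by
    have h7 : (4 : ℝ) ≤ rexp 2 := by
      have := Real.add_one_le_exp (1 : ℝ)
      have e : rexp 2 = rexp 1 * rexp 1 := by rw [← Real.exp_add]; norm_num
      rw [e]; nlinarith
    rw [Real.exp_neg, inv_eq_one_div]
    exact one_div_le_one_div_of_le (by norm_num) h7
  have h8 : rexp (-2) ^ n ≤ (1 / 4) ^ n := pow_le_pow_left₀ (Real.exp_pos _).le h6 n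
  have h9 : (1 / 4 : ℝ) ^ n = (1 / 2) ^ n * (1 / 2) ^ n := by rw [← mul_pow]; norm_num
  have h10 : (2 : ℝ) * (1 / 2) ^ n ≤ 1 := by
    have h11 : (1 / 2 : ℝ) ^ n ≤ (1 / 2) ^ 1 := pow_le_pow_of_le_one (by norm_num) (by norm_num)
      (by omega)
    linarith
  have h12 : (0 : ℝ) < (1 / 2) ^ n := by positivity
  calc 2 * rexp (-(n : ℝ) ^ 2 / 2) ≤ 2 * ((1 / 2) ^ n * (1 / 2) ^ n) := by
        rw [← h9]; linarith [h4.trans (h5.le.trans h8)]
    _ = (2 * (1 / 2) ^ n) * (1 / 2) ^ n := by ring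
    _ ≤ 1 * (1 / 2) ^ n := mul_le_mul_of_nonneg_right h10 h12.le
    _ = _ := one_mul _

/-- `ξ` is a sequence of independent standard complex Gaussian random variables. -/
structure IsGaussianSeq {Ω : Type*} [MeasurableSpace Ω] (P : Measure Ω) (ξ : ℕ → Ω → ℂ) :
    Prop where
  /-- every `ξ n` is a random variable -/
  meas : ∀ n, Measurable (ξ n)
  /-- the `ξ n` are independent -/
  indep : iIndepFun ξ P
  /-- `ξ n` is standard complex Gaussian -/
  law : ∀ n, P.map (ξ n) = stdComplexGaussian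

lemma prod_tail (p : ℕ → ℝ) (N : ℕ) (hp1 : ∀ n, p n ≤ 1)
    (hp : ∀ n, N ≤ n → 1 - (1 / 2) ^ n ≤ p n) (m : ℕ) :
    (∏ i ∈ Finset.range m, p (N + i)) ≤ 1 ∧
    1 - 2 * (1 / 2 : ℝ) ^ N + 2 * (1 / 2) ^ (N + m) ≤ ∏ i ∈ Finset.range m, p (N + i) := by
  have hp0 : ∀ i, 0 ≤ p (N + i) := by
    intro i
    refine le_trans ?_ (hp (N + i) (by omega))
    have : (1 / 2 : ℝ) ^ (N + i) ≤ 1 := pow_le_one₀ (by norm_num) (by norm_num)
    linarith
  induction m with
  | zero => simp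
  | succ m ih =>
    rw [Finset.prod_range_succ]
    obtain ⟨ih1, ih2⟩ := ih
    have hQ0 : 0 ≤ ∏ i ∈ Finset.range m, p (N + i) := Finset.prod_nonneg fun i _ => hp0 i
    have h1 := hp (N + m) (by omega)
    have h2 : 0 < (1 / 2 : ℝ) ^ (N + m) := by positivity
    refine ⟨mul_le_one₀ ih1 (hp0 m) (hp1 _), ?_⟩
    have h3 : (1 / 2 : ℝ) ^ (N + (m + 1)) = (1 / 2) ^ (N + m) * (1 / 2) := by
      rw [← add_assoc, pow_succ]
    rw [h3]
    nlinarith

lemma prob_lower {Ω : Type*} [MeasurableSpace Ω] (P : Measure Ω) [IsProbabilityMeasure P]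
    (ξ : ℕ → Ω → ℂ) (hξ : IsGaussianSeq P ξ) (h : ℕ → ℂ) (hh : ∀ n, ‖h n‖ ≤ 1)
    (N : ℕ) (hN : 4 ≤ N) (ε : ℝ) (h0 : 0 ≤ ε) (h1 : ε ≤ 1) :
    (ε ^ 2 * rexp (-4)) ^ N * (1 / 2) ≤
      P.real {ω | (∀ n < N, ‖ξ n ω - h n‖ ≤ ε) ∧ ∀ n, N ≤ n → ‖ξ n ω - h n‖ ≤ 2 ^ n} := by
  classical
  set A : ℕ → Set ℂ := fun n => closedBall (h n) (if n < N then ε else 2 ^ n) with hA
  have hAm : ∀ n, MeasurableSet (A n) := fun n => measurableSet_closedBall
  have hset : {ω | (∀ n < N, ‖ξ n ω - h n‖ ≤ ε) ∧ ∀ n, N ≤ n → ‖ξ n ω - h n‖ ≤ 2 ^ n} =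
      ⋂ m : ℕ, ⋂ n ∈ Finset.range (N + m), ξ n ⁻¹' A n := by
    ext ω
    simp only [Set.mem_setOf_eq, Set.mem_iInter, Set.mem_preimage, hA, mem_closedBall,
      dist_eq_norm, Finset.mem_range]
    constructor
    · rintro ⟨ha, hb⟩ m n _
      split_ifs with hn
      · exact ha n hn
      · exact hb n (by omega)
    · intro hall
      refine ⟨fun n hn => ?_, fun n hn => ?_⟩
      · have := hall (n + 1) n (by omega)
        rwa [if_pos hn] at this
      · have := hall (n + 1) n (by omega)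
        rwa [if_neg (by omega)] at this
  rw [hset]
  set p : ℕ → ℝ := fun n => P.real (ξ n ⁻¹' A n) with hp
  have hp1 : ∀ n, p n ≤ 1 := fun n => measureReal_le_one
  have hmap : ∀ n (B : Set ℂ), MeasurableSet B → P (ξ n ⁻¹' B) = stdComplexGaussian B := by
    intro n B hB
    rw [← hξ.law n, Measure.map_apply (hξ.meas n) hB]
  have hpa : ∀ n < N, ε ^ 2 * rexp (-4) ≤ p n := by
    intro n hn
    have h2 := ball_lower (h n) ε (hh n) h0 h1
    have h3 : P (ξ n ⁻¹' A n) = stdComplexGaussian (closedBall (h n) ε) := by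
      rw [hmap n _ (hAm n)]
      simp only [hA, if_pos hn]
    simp only [hp, Measure.real, h3]
    refine (ENNReal.ofReal_le_iff_le_toReal ?_).1 h2
    rw [← h3]; exact measure_ne_top _ _
  have hpb : ∀ n, N ≤ n → 1 - (1 / 2) ^ n ≤ p n := by
    intro n hn
    have h2 := tail_ball (h n) n (hh n) (by omega)
    have h3 : P (ξ n ⁻¹' A n)ᶜ = stdComplexGaussian (closedBall (h n) (2 ^ n))ᶜ := by
      rw [← Set.preimage_compl, hmap n _ (hAm n).compl]
      simp only [hA, if_neg (not_lt.2 hn)]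
    have h4 : P.real (ξ n ⁻¹' A n)ᶜ ≤ (1 / 2) ^ n := by
      simp only [Measure.real, h3]
      exact ENNReal.toReal_le_of_le_ofReal (by positivity) h2
    have h5 : P.real (ξ n ⁻¹' A n)ᶜ = 1 - p n := by
      simp only [hp]
      rw [probReal_compl_eq_one_sub ((hξ.meas n) (hAm n))]
    linarith
  have hprod : ∀ m, P.real (⋂ n ∈ Finset.range (N + m), ξ n ⁻¹' A n) =
      ∏ n ∈ Finset.range (N + m), p n := by
    intro m
    simp only [Measure.real]
    rw [hξ.indep.measure_inter_preimage_eq_mul (Finset.range (N + m)) (fun n _ => hAm n)]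
    rw [ENNReal.toReal_prod]
    rfl
  have hbound : ∀ m, (ε ^ 2 * rexp (-4)) ^ N * (1 / 2) ≤
      P.real (⋂ n ∈ Finset.range (N + m), ξ n ⁻¹' A n) := by
    intro m
    rw [hprod m, Finset.prod_range_add]
    have h6 : (ε ^ 2 * rexp (-4)) ^ N ≤ ∏ n ∈ Finset.range N, p n := by
      have := Finset.prod_le_prod (s := Finset.range N) (f := fun _ => ε ^ 2 * rexp (-4))
        (g := p) (fun i _ => by positivity) (fun i hi => hpa i (Finset.mem_range.1 hi))
      simpa using this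
    have h7 : (1 / 2 : ℝ) ≤ ∏ i ∈ Finset.range m, p (N + i) := by
      refine le_trans ?_ (prod_tail p N hp1 hpb m).2
      have h8 : (1 / 2 : ℝ) ^ N ≤ (1 / 2) ^ 2 := pow_le_pow_of_le_one (by norm_num)
        (by norm_num) (by omega)
      have h9 : (0 : ℝ) < (1 / 2) ^ (N + m) := by positivity
      linarith
    exact mul_le_mul h6 h7 (by norm_num) (le_trans (by positivity) h6)
  have hanti : Antitone (fun m => ⋂ n ∈ Finset.range (N + m), ξ n ⁻¹' A n) := by
    intro m m' hmm ω hω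
    simp only [Set.mem_iInter, Finset.mem_range] at hω ⊢
    intro n hn
    exact hω n (by omega)
  have htend := tendsto_measure_iInter_atTop (μ := P)
    (s := fun m => ⋂ n ∈ Finset.range (N + m), ξ n ⁻¹' A n)
    (fun m => (Finset.measurableSet_biInter _ fun n _ => (hξ.meas n) (hAm n)).nullMeasurableSet)
    hanti ⟨0, measure_ne_top _ _⟩
  have htend2 := (ENNReal.tendsto_toReal (measure_ne_top P _)).comp htend
  exact ge_of_tendsto htend2 (Eventually.of_forall hbound)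

end Q298.Hole
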