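import Mathlib
import Pool.Agent.Q298.Hole.Det

/-!
The function `S(r) = 2 ∑ log⁺ (r ^ n / √n!)` and its lower bound of order `r ^ 4`.
-/

namespace Q298.Hole

open Filter Real Finset

open scoped Nat Topology

/-- `S(r) = 2 ∑_{n ≥ 0} log⁺ (r ^ n / √(n!))`. -/
noncomputable def S (r : ℝ) : ℝ := 2 * ∑' n : ℕ, Real.posLog (r ^ n / √(n ! : ℝ))

lemma summable_S (r : ℝ) (hr : 0 ≤ r) :
    Summable (fun n : ℕ => Real.posLog (r ^ n / √(n ! : ℝ))) := by
  obtain ⟨N, hN⟩ := pow_unbounded_of_one_lt (rexp (2 * r ^ 2)) (by norm_num : (1 : ℝ) < 2)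
  apply summable_of_ne_finset_zero (s := range N)
  intro n hn
  rw [Finset.mem_range, not_lt] at hn
  apply Real.posLog_eq_zero_iff _ |>.2
  have h1 := pow_div_sqrt_le (2 * r) n (by positivity)
  have h2 : (2 * r) ^ 2 / 2 = 2 * r ^ 2 := by ring
  rw [h2, mul_pow, mul_div_assoc] at h1
  have h3 : (2 : ℝ) ^ N ≤ 2 ^ n := pow_le_pow_right₀ (by norm_num) hn
  have h4 : 0 ≤ r ^ n / √(n ! : ℝ) := div_nonneg (by positivity) (Real.sqrt_nonneg _)
  rw [abs_of_nonneg h4]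
  have h5 : (2 : ℝ) ^ n * (r ^ n / √(n ! : ℝ)) ≤ 2 ^ n * 1 := by linarith
  exact le_of_mul_le_mul_left h5 (by positivity)

lemma S_lower (r : ℝ) (hr : 2 ≤ r) : r ^ 4 / 25 ≤ S r := by
  set m := ⌊r ^ 2 / 2⌋₊ with hm
  have hr0 : 0 ≤ r := by linarith
  have h1 : ∑ n ∈ range (m + 1), Real.posLog (r ^ n / √(n ! : ℝ)) ≤
      ∑' n : ℕ, Real.posLog (r ^ n / √(n ! : ℝ)) :=
    (summable_S r hr0).sum_le_tsum _ fun n _ => Real.posLog_nonneg
  have h2 : ∀ n ∈ range (m + 1), (n : ℝ) * (Real.log 2 / 2) ≤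
      Real.posLog (r ^ n / √(n ! : ℝ)) := by
    intro n hn
    have hnm : n ≤ m := by have := Finset.mem_range.1 hn; omega
    refine le_trans ?_ (le_max_right 0 (Real.log (r ^ n / √(n ! : ℝ))))
    have h3 : (n ! : ℝ) ≤ (r ^ 2 / 2) ^ n := by
      have h4 : (n ! : ℝ) ≤ (n : ℝ) ^ n := by exact_mod_cast Nat.factorial_le_pow n
      have h5 : (n : ℝ) ≤ r ^ 2 / 2 := by
        have h6 : (m : ℝ) ≤ r ^ 2 / 2 := Nat.floor_le (by positivity)
        have h7 : (n : ℝ) ≤ m := by exact_mod_cast hnm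
        linarith
      exact h4.trans (pow_le_pow_left₀ (by positivity) h5 n)
    have hpos : 0 < √(n ! : ℝ) := sqrt_fact_pos n
    rw [Real.log_div (by positivity) hpos.ne', Real.log_sqrt (fact_pos n).le, Real.log_pow]
    have h8 : Real.log (n ! : ℝ) ≤ n * (2 * Real.log r - Real.log 2) := by
      have := Real.log_le_log (fact_pos n) h3
      rw [Real.log_pow, Real.log_div (by positivity) (by norm_num), Real.log_pow] at this
      exact_mod_cast this
    nlinarith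
  have h3 : ∑ n ∈ range (m + 1), (n : ℝ) * (Real.log 2 / 2) = (m : ℝ) * (m + 1) * (Real.log 2 / 4) := by
    rw [← Finset.sum_mul]
    have h4 : (∑ n ∈ range (m + 1), (n : ℝ)) * 2 = (m : ℝ) * (m + 1) := by
      have := Finset.sum_range_id_mul_two (m + 1)
      have h5 : (((∑ n ∈ range (m + 1), n) * 2 : ℕ) : ℝ) = (((m + 1) * (m + 1 - 1) : ℕ) : ℝ) := by
        rw [this]
      push_cast at h5
      linarith
    have h6 : (∑ n ∈ range (m + 1), (n : ℝ)) * (Real.log 2 / 2) =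
        ((∑ n ∈ range (m + 1), (n : ℝ)) * 2) * (Real.log 2 / 4) := by ring
    rw [h6, h4]
  have h4 := (h3 ▸ Finset.sum_le_sum h2).trans h1
  have h5 : r ^ 2 / 2 < m + 1 := Nat.lt_floor_add_one _
  have h6 : r ^ 2 / 4 ≤ m := by nlinarith
  have h7 := Real.log_two_gt_d9
  unfold S
  have h8 : r ^ 2 / 4 * (r ^ 2 / 2) ≤ (m : ℝ) * (m + 1) :=
    mul_le_mul h6 h5.le (by positivity) (by positivity)
  have h9 : r ^ 2 / 4 * (r ^ 2 / 2) * (0.69 / 4) ≤ (m : ℝ) * (m + 1) * (Real.log 2 / 4) :=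
    mul_le_mul h8 (by linarith) (by norm_num) (by positivity)
  have h10 : 0 ≤ r ^ 4 := by positivity
  nlinarith

end Q298.Hole
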